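import Mathlib.Data.List.Infix
import Mathlib.Data.List.Basic
import Mathlib.Data.List.Flatten
import Mathlib.Logic.Function.Iterate
import Mathlib.Tactic
import Mathlib.Data.Bool.Count

namespace Pool.Agent.MP_8331c1_co.Bin

/-- The extension of a map on letters to words. -/
def ext (g : Bool → List Bool) (x : List Bool) : List Bool := x.flatMap g

/-- `g^n(a)`, with `a = false`. -/
def W (g : Bool → List Bool) (n : ℕ) : List Bool := (ext g)^[n] [false]

/-- factors of the words `g^n(a)` -/
def L (g : Bool → List Bool) (x : List Bool) : Prop := ∃ n, x <:+: W g n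

theorem ext_append (g : Bool → List Bool) (x y : List Bool) :
    ext g (x ++ y) = ext g x ++ ext g y := by simp [ext]

theorem it_append (g : Bool → List Bool) (n : ℕ) (x y : List Bool) :
    (ext g)^[n] (x ++ y) = (ext g)^[n] x ++ (ext g)^[n] y := by
  induction n generalizing x y with
  | zero => rfl
  | succ n ih => simp only [Function.iterate_succ, Function.comp]; rw [ext_append, ih]

theorem it_nil (g : Bool → List Bool) (n : ℕ) : (ext g)^[n] [] = [] := by
  induction n with
  | zero => rfl
  | succ n ih => simp only [Function.iterate_succ, Function.comp]; simpa [ext] using ih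

theorem it_infix (g : Bool → List Bool) (n : ℕ) {x y : List Bool} (h : x <:+: y) :
    (ext g)^[n] x <:+: (ext g)^[n] y := by
  obtain ⟨s, t, rfl⟩ := h
  rw [it_append, it_append]
  exact ⟨_, _, rfl⟩

theorem L_of_infix {g : Bool → List Bool} {x y : List Bool} (h : x <:+: y) (hy : L g y) :
    L g x := by
  obtain ⟨n, hn⟩ := hy
  exact ⟨n, h.trans hn⟩

theorem L_it {g : Bool → List Bool} {x : List Bool} (n : ℕ) (hx : L g x) :
    L g ((ext g)^[n] x) := by
  obtain ⟨m, hm⟩ := hx
  refine ⟨n + m, ?_⟩
  have := it_infix g n hm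
  rw [W, Function.iterate_add_apply]
  exact this

/-- both halves of the pattern occur -/
def Fm (g : Bool → List Bool) : Prop :=
  ∃ A B : List Bool, A ≠ [] ∧ B ≠ [] ∧ L g (A ++ A ++ B ++ A ++ A) ∧ L g (B ++ A ++ A ++ B)

/-- the pattern occurs -/
def Pt (g : Bool → List Bool) : Prop :=
  ∃ A B C : List Bool, A ≠ [] ∧ B ≠ [] ∧ C ≠ [] ∧
    L g (A ++ A ++ B ++ A ++ A ++ C ++ B ++ A ++ A ++ B)

theorem claim1 {g : Bool → List Bool} {x y z : List Bool} (hx : L g (x ++ x))
    (e : x = y ++ y ++ z) (hy : y ≠ []) (hz : z ≠ []) : Fm g := by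
  subst e
  refine ⟨y, z, hy, hz, L_of_infix ⟨[], z, by simp⟩ hx, L_of_infix ⟨y ++ y, [], by simp⟩ hx⟩

theorem claim2 {g : Bool → List Bool} {x y z : List Bool} (hx : L g (x ++ x))
    (e : x = z ++ (y ++ y)) (hy : y ≠ []) (hz : z ≠ []) : Fm g := by
  subst e
  refine ⟨y, z, hy, hz, L_of_infix ⟨z, [], by simp⟩ hx, L_of_infix ⟨[], y ++ y, by simp⟩ hx⟩

/-- If `U = c … c` is a square root of a factor and long, then it starts with `c d d`. -/
theorem start {g : Bool → List Bool} {c : Bool} {U : List Bool} (hU : L g (U ++ U))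
    (h5 : 5 ≤ U.length) (h1 : ∃ t, U = c :: t) (h2 : ∃ t, U = t ++ [c]) :
    Fm g ∨ ∃ t, U = c :: (!c) :: (!c) :: t := by
  obtain ⟨t, rfl⟩ := h1
  match t, h5 with
  | x2 :: x3 :: x4 :: x5 :: t, _ =>
    by_cases e2 : x2 = c
    · subst e2
      exact Or.inl (claim1 (y := [x2]) (z := x3 :: x4 :: x5 :: t) hU (by simp) (by simp) (by simp))
    have e2' : x2 = !c := by cases x2 <;> cases c <;> simp_all
    subst e2'
    by_cases e3 : x3 = !c
    · subst e3; exact Or.inr ⟨_, rfl⟩
    have e3' : x3 = c := by cases x3 <;> cases c <;> simp_all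
    subst e3'
    by_cases e4 : x4 = !x3
    · subst e4
      exact Or.inl (claim1 (y := [x3, !x3]) (z := x5 :: t) hU (by simp) (by simp) (by simp))
    have e4' : x4 = x3 := by cases x4 <;> cases x3 <;> simp_all
    subst e4'
    obtain ⟨s, hs⟩ := h2
    -- second last letter
    rcases List.eq_nil_or_concat s with rfl | ⟨r, e, rfl⟩
    · simp at hs
    by_cases ee : e = x4
    · subst ee
      refine Or.inl (claim2 (y := [e]) (z := r) hU (by rw [hs]; simp) (by simp) ?_)
      rintro rfl
      simp at hs
    have ee' : e = !x4 := by cases e <;> cases x4 <;> simp_all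
    subst ee'
    refine Or.inl ⟨[x4], [!x4], by simp, by simp, ?_, ?_⟩
    · refine L_of_infix ?_ hU
      nth_rewrite 1 [hs]
      exact ⟨r ++ [!x4], x5 :: t, by simp⟩
    · refine L_of_infix ?_ hU
      nth_rewrite 1 [hs]
      exact ⟨r, x4 :: x4 :: x5 :: t, by simp⟩

theorem ending {g : Bool → List Bool} {c : Bool} {U : List Bool} (hU : L g (U ++ U))
    (h5 : 5 ≤ U.length) (h1 : ∃ t, U = c :: t) (h2 : ∃ t, U = t ++ [c]) :
    Fm g ∨ ∃ t, U = t ++ [!c, !c, c] := by
  obtain ⟨s, rfl⟩ := h2
  obtain ⟨V, hV⟩ : ∃ V : List Bool, V = s.reverse := ⟨_, rfl⟩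
  have hs : s = V.reverse := by rw [hV, List.reverse_reverse]
  subst hs
  clear hV
  match V, h5 with
  | x2 :: x3 :: x4 :: x5 :: t, _ =>
    by_cases e2 : x2 = c
    · subst e2
      exact Or.inl (claim2 (y := [x2]) (z := (x3 :: x4 :: x5 :: t).reverse) hU (by simp)
        (by simp) (by simp))
    have e2' : x2 = !c := by cases x2 <;> cases c <;> simp_all
    subst e2'
    by_cases e3 : x3 = !c
    · subst e3; exact Or.inr ⟨(x4 :: x5 :: t).reverse, by simp⟩
    have e3' : x3 = c := by cases x3 <;> cases c <;> simp_all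
    subst e3'
    by_cases e4 : x4 = !x3
    · subst e4
      exact Or.inl (claim2 (y := [!x3, x3]) (z := (x5 :: t).reverse) hU (by simp) (by simp)
        (by simp))
    have e4' : x4 = x3 := by cases x4 <;> cases x3 <;> simp_all
    subst e4'
    obtain ⟨r, hr⟩ := h1
    match r, hr with
    | [], hr => have := congrArg List.length hr; simp at this
    | e :: r, hr =>
    by_cases ee : e = x4
    · subst ee
      refine Or.inl (claim1 (y := [e]) (z := r) hU (by rw [hr]; simp) (by simp) ?_)
      rintro rfl
      have := congrArg List.length hr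
      simp at this
    have ee' : e = !x4 := by cases e <;> cases x4 <;> simp_all
    subst ee'
    refine Or.inl ⟨[x4], [!x4], by simp, by simp, ?_, ?_⟩
    · refine L_of_infix ?_ hU
      nth_rewrite 2 [hr]
      exact ⟨(x5 :: t).reverse, (!x4) :: r, by simp⟩
    · refine L_of_infix ?_ hU
      nth_rewrite 2 [hr]
      exact ⟨(x4 :: x4 :: x5 :: t).reverse, r, by simp⟩


theorem both {g : Bool → List Bool} {c : Bool} {U V : List Bool}
    (hU : L g (U ++ U)) (hV : L g (V ++ V)) (hU5 : 5 ≤ U.length) (hV5 : 5 ≤ V.length)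
    (hU1 : ∃ t, U = c :: t) (hU2 : ∃ t, U = t ++ [c])
    (hV1 : ∃ t, V = (!c) :: t) (hV2 : ∃ t, V = t ++ [!c]) : Fm g := by
  rcases start hU hU5 hU1 hU2 with h | ⟨t1, h1⟩
  · exact h
  rcases ending hU hU5 hU1 hU2 with h | ⟨t2, h2⟩
  · exact h
  rcases start hV hV5 hV1 hV2 with h | ⟨t3, h3⟩
  · exact h
  rcases ending hV hV5 hV1 hV2 with h | ⟨t4, h4⟩
  · exact h
  rw [Bool.not_not] at h3 h4
  refine ⟨[c], [!c, !c], by simp, by simp, ?_, ?_⟩
  · refine L_of_infix ?_ hV
    nth_rewrite 1 [h4]
    rw [h3]
    exact ⟨t4, t3, by simp⟩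
  · refine L_of_infix ?_ hU
    nth_rewrite 1 [h2]
    rw [h1]
    exact ⟨t2, t1, by simp⟩

theorem core {g : Bool → List Bool} {n : ℕ} {c : Bool}
    (hlen : ∀ x, 5 ≤ ((ext g)^[n] [x]).length)
    (hf : ∀ x, ∃ t, (ext g)^[n] [x] = x :: t)
    (hl : ∀ x, ∃ t, (ext g)^[n] [x] = t ++ [x]) (hc : L g [c, c]) : Fm g := by
  have sq : ∀ x, L g [x, x] → L g ((ext g)^[n] [x] ++ (ext g)^[n] [x]) := by
    intro x hx
    rw [← it_append]
    exact L_it n hx
  rcases start (sq c hc) (hlen c) (hf c) (hl c) with h | ⟨t, ht⟩
  · exact h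
  have hd : L g [!c, !c] := by
    refine L_of_infix ?_ (sq c hc)
    rw [ht]
    exact ⟨[c], t ++ c :: (!c) :: (!c) :: t, by simp⟩
  exact both (sq c hc) (sq _ hd) (hlen c) (hlen _) (hf c) (hl c) (hf _) (hl _)

theorem alt4 : ∀ q1 q2 q3 q4 : Bool, q1 ≠ q2 → q2 ≠ q3 → q3 ≠ q4 →
    q2 = !q1 ∧ q3 = q1 ∧ q4 = !q1 := by decide

theorem three {g : Bool → List Bool} {q1 q2 : Bool} {r : List Bool}
    (h : L g ((q1 :: q2 :: r) ++ (q1 :: q2 :: r) ++ [q1, q2])) (h5 : 3 ≤ r.length) : Fm g := by
  match r, h5 with
  | q3 :: q4 :: q5 :: t, _ =>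
    by_cases e1 : q1 = q2
    · subst e1
      exact claim1 (x := q1 :: q1 :: q3 :: q4 :: q5 :: t) (y := [q1]) (z := q3 :: q4 :: q5 :: t)
        (L_of_infix ⟨[], [q1, q1], by simp⟩ h) (by simp) (by simp) (by simp)
    by_cases e2 : q2 = q3
    · subst e2
      exact claim1 (x := q2 :: q2 :: q4 :: q5 :: (t ++ [q1])) (y := [q2])
        (z := q4 :: q5 :: (t ++ [q1]))
        (L_of_infix ⟨[q1], [q2], by simp⟩ h) (by simp) (by simp) (by simp)
    by_cases e3 : q3 = q4
    · subst e3
      exact claim1 (x := q3 :: q3 :: q5 :: (t ++ [q1, q2])) (y := [q3])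
        (z := q5 :: (t ++ [q1, q2]))
        (L_of_infix ⟨[q1, q2], [], by simp⟩ h) (by simp) (by simp) (by simp)
    obtain ⟨rfl, rfl, rfl⟩ := alt4 q1 q2 q3 q4 e1 e2 e3
    exact claim1 (x := q3 :: (!q3) :: q3 :: (!q3) :: q5 :: t) (y := [q3, !q3]) (z := q5 :: t)
        (L_of_infix ⟨[], [q3, !q3], by simp⟩ h) (by simp) (by simp) (by simp)

theorem three' {g : Bool → List Bool} {q1 q2 : Bool} {r : List Bool}
    (h : L g ([q2, q1] ++ (r ++ [q2, q1]) ++ (r ++ [q2, q1]))) (h5 : 3 ≤ r.length) : Fm g := by
  obtain ⟨s, rfl⟩ : ∃ s : List Bool, r = s.reverse := ⟨r.reverse, by simp⟩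
  match s, h5 with
  | q3 :: q4 :: q5 :: t, _ =>
    by_cases e1 : q1 = q2
    · subst e1
      exact claim2 (x := t.reverse ++ [q5, q4, q3, q1, q1]) (y := [q1])
        (z := (q3 :: q4 :: q5 :: t).reverse)
        (L_of_infix ⟨[q1, q1], [], by simp⟩ h) (by simp) (by simp) (by simp)
    by_cases e2 : q2 = q3
    · subst e2
      exact claim2 (x := q1 :: (t.reverse ++ [q5, q4, q2, q2])) (y := [q2])
        (z := q1 :: (t.reverse ++ [q5, q4]))
        (L_of_infix ⟨[q2], [q1], by simp⟩ h) (by simp) (by simp) (by simp)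
    by_cases e3 : q3 = q4
    · subst e3
      exact claim2 (x := q2 :: q1 :: (t.reverse ++ [q5, q3, q3])) (y := [q3])
        (z := q2 :: q1 :: (t.reverse ++ [q5]))
        (L_of_infix ⟨[], [q2, q1], by simp⟩ h) (by simp) (by simp) (by simp)
    obtain ⟨rfl, rfl, rfl⟩ := alt4 q1 q2 q3 q4 e1 e2 e3
    exact claim2 (x := t.reverse ++ [q5, !q3, q3, !q3, q3]) (y := [!q3, q3])
        (z := t.reverse ++ [q5])
        (L_of_infix ⟨[!q3, q3], [], by simp⟩ h) (by simp) (by simp) (by simp)

/-! ### prefix chain -/

theorem W_succ (g : Bool → List Bool) (n : ℕ) : W g (n + 1) = ext g (W g n) := by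
  rw [W, Function.iterate_succ_apply', W]

theorem it_prefix (g : Bool → List Bool) (n : ℕ) {x y : List Bool} (h : x <+: y) :
    (ext g)^[n] x <+: (ext g)^[n] y := by
  obtain ⟨t, rfl⟩ := h
  rw [it_append]
  exact ⟨_, rfl⟩

theorem W_prefix_succ {g : Bool → List Bool} (hp : ∃ t, g false = false :: t) (n : ℕ) :
    W g n <+: W g (n + 1) := by
  obtain ⟨t, ht⟩ := hp
  rw [W, W, Function.iterate_succ_apply]
  exact it_prefix g n ⟨t, by simp [ext, ht]⟩

theorem W_prefix {g : Bool → List Bool} (hp : ∃ t, g false = false :: t) {m n : ℕ} (h : m ≤ n) :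
    W g m <+: W g n := by
  induction n, h using Nat.le_induction with
  | base => exact List.prefix_refl _
  | succ n _ ih => exact ih.trans (W_prefix_succ hp n)

theorem W_cons {g : Bool → List Bool} (hp : ∃ t, g false = false :: t) (n : ℕ) :
    ∃ t, W g n = false :: t := by
  obtain ⟨t, ht⟩ := W_prefix hp (Nat.zero_le n)
  exact ⟨t, by rw [← ht]; simp [W]⟩

theorem W_len {g : Bool → List Bool} (hp : ∃ t, g false = false :: t)
    (hu : ∀ N, ∃ n, N ≤ (W g n).length) (N : ℕ) : ∃ m, ∀ n, m ≤ n → N ≤ (W g n).length := by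
  obtain ⟨m, hm⟩ := hu N
  exact ⟨m, fun n hn => hm.trans (W_prefix hp hn).length_le⟩

theorem split3 {l : List Bool} (h : 3 ≤ l.count false) :
    ∃ a b c d, l = a ++ [false] ++ b ++ [false] ++ c ++ [false] ++ d := by
  have h1 : false ∈ l := List.count_pos_iff.1 (by omega)
  obtain ⟨a, l1, rfl, ha⟩ := List.eq_append_cons_of_mem h1
  have ha' : a.count false = 0 := List.count_eq_zero.2 ha
  rw [List.count_append, ha', List.count_cons_self] at h
  have h2 : false ∈ l1 := List.count_pos_iff.1 (by omega)
  obtain ⟨b, l2, rfl, hb⟩ := List.eq_append_cons_of_mem h2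
  have hb' : b.count false = 0 := List.count_eq_zero.2 hb
  rw [List.count_append, hb', List.count_cons_self] at h
  have h3 : false ∈ l2 := List.count_pos_iff.1 (by omega)
  obtain ⟨c, l3, rfl, -⟩ := List.eq_append_cons_of_mem h3
  exact ⟨a, b, c, l3, by simp⟩

theorem rec3 {g : Bool → List Bool} (hp : ∃ t, g false = false :: t)
    (h3 : ∃ j, 3 ≤ (W g j).count false) {x y : List Bool} (hx : L g x) (hy : L g y) :
    ∃ C, C ≠ [] ∧ L g (x ++ C ++ y) := by
  obtain ⟨j, hj⟩ := h3
  obtain ⟨a, b, c, d, e⟩ := split3 hj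
  obtain ⟨m1, h1⟩ := hx
  obtain ⟨m2, h2⟩ := hy
  set m := max m1 m2
  have k1 : x <:+: W g m := h1.trans (W_prefix hp (le_max_left _ _)).isInfix
  have k2 : y <:+: W g m := h2.trans (W_prefix hp (le_max_right _ _)).isInfix
  obtain ⟨s1, t1, e1⟩ := k1
  obtain ⟨s2, t2, e2⟩ := k2
  obtain ⟨w, hw⟩ := W_cons hp m
  refine ⟨t1 ++ (ext g)^[m] b ++ W g m ++ (ext g)^[m] c ++ s2, by simp [hw], ?_⟩
  refine ⟨m + j, ?_⟩
  have : W g (m + j) = (ext g)^[m] a ++ (s1 ++ x ++ t1) ++ (ext g)^[m] b ++ W g m ++
      (ext g)^[m] c ++ (s2 ++ y ++ t2) ++ (ext g)^[m] d := by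
    rw [W, Function.iterate_add_apply, ← W, e]
    simp only [it_append]
    rw [e1, e2]
    rfl
  rw [this]
  exact ⟨(ext g)^[m] a ++ s1, t2 ++ (ext g)^[m] d, by simp⟩

theorem Pt_of_Fm {g : Bool → List Bool} (hp : ∃ t, g false = false :: t)
    (h3 : ∃ j, 3 ≤ (W g j).count false) (h : Fm g) : Pt g := by
  obtain ⟨A, B, hA, hB, h1, h2⟩ := h
  obtain ⟨C, hC, h⟩ := rec3 hp h3 h1 h2
  exact ⟨A, B, C, hA, hB, hC, by simpa using h⟩

theorem Pt_of_power {g : Bool → List Bool} {x : List Bool} (hx : x ≠ [])
    (h : L g (List.replicate 10 x).flatten) : Pt g :=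
  ⟨x, x, x, hx, hx, hx, by simpa [List.replicate] using h⟩

theorem Pt_of_rep {g : Bool → List Bool} {c : Bool}
    (h : L g (List.replicate 10 c)) : Pt g :=
  Pt_of_power (x := [c]) (by simp) (by simpa [List.replicate] using h)


/-! ### the degenerate cases -/

theorem count_ext (g : Bool → List Bool) (x : List Bool) :
    (ext g x).count false = x.count false * (g false).count false +
      x.count true * (g true).count false := by
  induction x with
  | nil => simp [ext]
  | cons a x ih =>
    have : ext g (a :: x) = g a ++ ext g x := by simp [ext]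
    rw [this, List.count_append, ih]
    cases a <;> simp <;> ring

theorem allfalse {g : Bool → List Bool} (hu : ∀ N, ∃ n, N ≤ (W g n).length)
    (h : ¬ L g [true]) : Pt g := by
  obtain ⟨n, hn⟩ := hu 10
  apply Pt_of_rep (c := false)
  refine ⟨n, ?_⟩
  have h1 : ∀ x ∈ W g n, x = false := by
    intro x hx
    by_contra hne
    have : x = true := by simpa using hne
    subst this
    obtain ⟨s, t, e⟩ := List.append_of_mem hx
    exact h ⟨n, s, t, by rw [e]; simp⟩
  have h2 : W g n = List.replicate (W g n).length false := List.eq_replicate_iff.2 ⟨rfl, h1⟩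
  rw [h2]
  refine ⟨[], List.replicate ((W g n).length - 10) false, ?_⟩
  rw [List.nil_append, ← List.replicate_add]
  congr 1
  omega

theorem rep_infix {c : Bool} {m n : ℕ} (h : m ≤ n) :
    List.replicate m c <:+: List.replicate n c := by
  refine ⟨[], List.replicate (n - m) c, ?_⟩
  rw [List.nil_append, ← List.replicate_add]
  congr 1
  omega

theorem count_ge {g : Bool → List Bool} (h2 : 2 ≤ (g false).count false) (n : ℕ) :
    n + 1 ≤ (W g n).count false := by
  induction n with
  | zero => simp [W]
  | succ n ih =>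
    rw [W_succ, count_ext]
    have : 2 * (n + 1) ≤ (W g n).count false * (g false).count false := by
      calc 2 * (n + 1) = (n + 1) * 2 := by ring
        _ ≤ _ := Nat.mul_le_mul ih h2
    omega

/-- `g(b)` is empty. -/
theorem case_nil {g : Bool → List Bool} (hp : ∃ t, g false = false :: t)
    (hu : ∀ N, ∃ n, N ≤ (W g n).length) (hv : g true = []) : Pt g := by
  have key : ∀ x : List Bool, ext g x = (List.replicate (x.count false) (g false)).flatten := by
    intro x
    induction x with
    | nil => simp [ext]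
    | cons a x ih =>
      have : ext g (a :: x) = g a ++ ext g x := by simp [ext]
      rw [this, ih]
      cases a
      · simp [List.replicate_succ]
      · simp [hv]
  by_cases h2 : 2 ≤ (g false).count false
  · have h10 := count_ge h2 9
    apply Pt_of_power (x := g false)
    · obtain ⟨t, ht⟩ := hp
      simp [ht]
    refine ⟨10, ?_⟩
    rw [W_succ, key]
    refine ⟨[], (List.replicate ((W g 9).count false - 10) (g false)).flatten, ?_⟩
    rw [List.nil_append, ← List.flatten_append, ← List.replicate_add,
      show 10 + ((W g 9).count false - 10) = (W g 9).count false from by omega]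
  · exfalso
    have h1 : (g false).count false = 1 := by
      obtain ⟨t, ht⟩ := hp
      rw [ht, List.count_cons_self] at h2 ⊢
      omega
    have hc : ∀ n, (W g n).count false = 1 := by
      intro n
      induction n with
      | zero => simp [W]
      | succ n ih => rw [W_succ, count_ext, ih, h1, hv]; simp
    obtain ⟨m, hm⟩ := W_len hp hu ((g false).length + 1)
    have := hm (m + 1) (by omega)
    rw [W_succ, key, hc m] at this
    simp at this

/-- `g(b) = b^k`, `k ≥ 2`. -/
theorem case_rep {g : Bool → List Bool} (hu : ∀ N, ∃ n, N ≤ (W g n).length)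
    {k : ℕ} (hk : 2 ≤ k) (hv : g true = List.replicate k true) : Pt g := by
  by_cases ht : L g [true]
  swap
  · exact allfalse hu ht
  have e1 : ∀ n, ext g (List.replicate n true) = List.replicate (n * k) true := by
    intro n
    induction n with
    | zero => simp [ext]
    | succ n ih =>
      have : ext g (true :: List.replicate n true) = g true ++ ext g (List.replicate n true) := by
        simp [ext]
      rw [List.replicate_succ, this, ih, hv, ← List.replicate_add]
      congr 1
      ring
  have e2 : ∀ n, ∃ m, n + 1 ≤ m ∧ (ext g)^[n] [true] = List.replicate m true := by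
    intro n
    induction n with
    | zero => exact ⟨1, le_refl _, rfl⟩
    | succ n ih =>
      obtain ⟨m, hm, e⟩ := ih
      refine ⟨m * k, ?_, ?_⟩
      · have : (n + 1) * 2 ≤ m * k := Nat.mul_le_mul hm hk
        omega
      rw [Function.iterate_succ_apply', e, e1]
  obtain ⟨m, hm, e⟩ := e2 9
  apply Pt_of_rep (c := true)
  refine L_of_infix ?_ (L_it 9 ht)
  rw [e]
  exact rep_infix (by omega)


theorem lemQ {g : Bool → List Bool} {n : ℕ} (h5 : 5 ≤ (W g n).length)
    (h : ∃ t, W g n = [false, true, false, true] ++ t) : Fm g := by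
  obtain ⟨t, ht⟩ := h
  have h1 : L g [false, true, false, true] := ⟨n, [], t, by simpa using ht.symm⟩
  have h2 := L_it n h1
  have e : (ext g)^[n] [false, true, false, true] =
      (W g n ++ (ext g)^[n] [true]) ++ (W g n ++ (ext g)^[n] [true]) := by
    rw [show ([false, true, false, true] : List Bool) = ([false] ++ [true]) ++ ([false] ++ [true])
      from rfl, it_append, it_append]
    rfl
  rw [e] at h2
  refine claim1 (y := [false, true]) (z := t ++ (ext g)^[n] [true]) h2 ?_ (by simp) ?_
  · rw [ht]; simp
  · have : t ≠ [] := by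
      rintro rfl
      rw [ht] at h5
      simp at h5
    simp [this]

theorem lemK {g : Bool → List Bool} {k : ℕ} (hk : 2 ≤ k)
    (h : L g (false :: List.replicate k true ++ false :: List.replicate k true)) : Fm g := by
  obtain ⟨j, rfl⟩ : ∃ j, k = j + 2 := ⟨k - 2, by omega⟩
  have e1 : List.replicate (j + 2) true = [true, true] ++ List.replicate j true := by
    rw [Nat.add_comm, List.replicate_add]; rfl
  have e2 : List.replicate (j + 2) true = List.replicate j true ++ [true, true] := by
    rw [List.replicate_add]; rfl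
  refine ⟨[true], false :: List.replicate j true, by simp, by simp, L_of_infix ?_ h,
    L_of_infix ?_ h⟩
  · refine ⟨false :: List.replicate j true, [], ?_⟩
    rw [List.append_nil]
    nth_rewrite 2 [e2]
    nth_rewrite 1 [e2]
    simp
  · refine ⟨[], [true, true], ?_⟩
    rw [List.nil_append]
    nth_rewrite 2 [e2]
    nth_rewrite 1 [e2]
    simp

/-- first run of `true` -/
theorem firstrun (t : List Bool) : ∃ j r, t ++ [false] = List.replicate j true ++ false :: r := by
  induction t with
  | nil => exact ⟨0, [], rfl⟩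
  | cons a t ih =>
    obtain ⟨j, r, e⟩ := ih
    cases a
    · exact ⟨0, t ++ [false], rfl⟩
    · exact ⟨j + 1, r, by rw [List.cons_append, e]; rfl⟩

theorem lemA {g : Bool → List Bool} (hv : g true = [true]) {n : ℕ}
    (h1 : ∃ t, W g n = [false, true, true] ++ t) (h2 : ∃ t, W g n = t ++ [false]) : Fm g := by
  obtain ⟨t, ht⟩ := h1
  obtain ⟨s, hs⟩ := h2
  have hit : ∀ k : ℕ, (ext g)^[n] (List.replicate k true) = List.replicate k true := by
    intro k
    have : ∀ m, ext g (List.replicate m true) = List.replicate m true := by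
      intro m
      induction m with
      | zero => rfl
      | succ m ih =>
        have : ext g (true :: List.replicate m true) = g true ++ ext g (List.replicate m true) := by
          simp [ext]
        rw [List.replicate_succ, this, ih, hv]; rfl
    exact Function.iterate_fixed (this k) n
  -- the word ends with false, so t = t' ++ [false]
  obtain ⟨t', rfl⟩ : ∃ t', t = t' ++ [false] := by
    rcases List.eq_nil_or_concat t with rfl | ⟨r, e, rfl⟩
    · rw [ht] at hs
      rcases List.eq_nil_or_concat s with rfl | ⟨r, e, rfl⟩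
      · simp at hs
      · have := congrArg List.getLast? hs
        simp at this
    · refine ⟨r, ?_⟩
      have h3 : ([false, true, true] ++ r) ++ [e] = s ++ [false] := by
        rw [← hs, ht]; simp
      have h4 := (List.append_inj' h3 rfl).2
      simp only [List.cons.injEq, and_true] at h4
      simp [h4]
  obtain ⟨j, r, e⟩ := firstrun t'
  have hW : W g n = false :: List.replicate (j + 2) true ++ false :: r := by
    rw [ht, e, Nat.add_comm, List.replicate_add]; rfl
  have hL : L g (([false] ++ List.replicate (j + 2) true) ++ [false]) :=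
    ⟨n, [], r, by rw [hW]; simp⟩
  have hL2 := L_it n hL
  rw [it_append, it_append, hit] at hL2
  apply lemK (k := j + 2) (by omega)
  refine L_of_infix ?_ hL2
  change _ <:+: W g n ++ _ ++ W g n
  nth_rewrite 1 [hs]
  rw [hW]
  exact ⟨s, false :: r, by simp⟩

/-- `g(b) = b` -/
theorem case_fix {g : Bool → List Bool} (hp : ∃ t, g false = false :: t)
    (hu : ∀ N, ∃ n, N ≤ (W g n).length) (hv : g true = [true]) : Pt g := by
  by_cases ht : L g [true]
  swap
  · exact allfalse hu ht
  have hW1 : W g 1 = g false := by simp [W, ext]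
  by_cases h2 : 2 ≤ (g false).count false
  swap
  · -- `g(a) = a b^j`
    obtain ⟨t, e⟩ := hp
    have hct : t.count false = 0 := by
      rw [e, List.count_cons_self] at h2; omega
    have htr : t = List.replicate t.length true := by
      refine List.eq_replicate_iff.2 ⟨rfl, fun x hx => ?_⟩
      by_contra hne
      have : x = false := by simpa using hne
      subst this
      exact absurd hx (List.count_eq_zero.1 hct)
    have hrep : ∀ m, ext g (List.replicate m true) = List.replicate m true := by
      intro m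
      induction m with
      | zero => rfl
      | succ m ih =>
        have : ext g (true :: List.replicate m true) = g true ++ ext g (List.replicate m true) := by
          simp [ext]
        rw [List.replicate_succ, this, ih, hv]; rfl
    have hWn : ∀ n, ∃ m, W g n = false :: List.replicate m true := by
      intro n
      induction n with
      | zero => exact ⟨0, rfl⟩
      | succ n ih =>
        obtain ⟨m, hm⟩ := ih
        refine ⟨t.length + m, ?_⟩
        have : ext g (false :: List.replicate m true) =
            g false ++ ext g (List.replicate m true) := by simp [ext]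
        rw [W_succ, hm, this, hrep, e, List.replicate_add, ← htr]; rfl
    obtain ⟨n, hn⟩ := hu 11
    obtain ⟨m, hm⟩ := hWn n
    apply Pt_of_rep (c := true)
    refine L_of_infix (rep_infix (n := m) ?_) ⟨n, [false], [], by rw [hm]; simp⟩
    rw [hm] at hn
    simpa using hn
  have h3 : ∃ j, 3 ≤ (W g j).count false := ⟨2, count_ge h2 2⟩
  -- last letter of g false
  obtain ⟨s, c, hc⟩ : ∃ s c, g false = s ++ [c] := by
    rcases List.eq_nil_or_concat (g false) with h | ⟨r, e, h⟩
    · rw [h] at hp; simp at hp
    · exact ⟨r, e, by simpa using h⟩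
  have hgt : ∀ x y, ext g (x ++ [y]) = ext g x ++ g y := by
    intro x y; rw [ext_append]; simp [ext]
  cases c
  swap
  · -- `g(a)` ends with b
    have hlast : ∀ x, ∃ r, g x = r ++ [true] := by
      intro x
      cases x
      · exact ⟨s, hc⟩
      · exact ⟨[], hv⟩
    have hrep : ∀ m, ext g (List.replicate m true) = List.replicate m true := by
      intro m
      induction m with
      | zero => rfl
      | succ m ih =>
        have : ext g (true :: List.replicate m true) = g true ++ ext g (List.replicate m true) := by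
          simp [ext]
        rw [List.replicate_succ, this, ih, hv]; rfl
    have key : ∀ n, ∃ r, W g n = r ++ List.replicate n true := by
      intro n
      induction n with
      | zero => exact ⟨[false], rfl⟩
      | succ n ih =>
        obtain ⟨r, hr⟩ := ih
        rcases List.eq_nil_or_concat r with rfl | ⟨r', x, rfl⟩
        · exfalso
          obtain ⟨t, ht⟩ := W_cons hp n
          rw [ht] at hr
          have h1 : false ∈ List.replicate n true := by
            rw [List.nil_append] at hr
            rw [← hr]; simp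
          have := List.eq_of_mem_replicate h1
          simp at this
        · obtain ⟨q, hq⟩ := hlast x
          refine ⟨ext g r' ++ q, ?_⟩
          rw [W_succ, hr, ext_append, hrep, List.concat_eq_append, hgt, hq,
            List.replicate_succ]
          simp
    obtain ⟨r, hr⟩ := key 10
    exact Pt_of_rep (c := true) ⟨10, r, [], by rw [hr]; simp⟩
  · have hlast : ∀ n, ∃ t, W g n = t ++ [false] := by
      intro n
      induction n with
      | zero => exact ⟨[], rfl⟩
      | succ n ih =>
        obtain ⟨t, ht⟩ := ih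
        exact ⟨ext g t ++ s, by rw [W_succ, ht, hgt, hc]; simp⟩
    apply Pt_of_Fm hp h3
    by_cases hff : L g [false, false]
    · obtain ⟨n, hn⟩ := hu 5
      have hUU : L g (W g n ++ W g n) := by
        have := L_it n hff
        rw [show ([false, false] : List Bool) = [false] ++ [false] from rfl, it_append] at this
        exact this
      rcases start hUU hn (W_cons hp n) (hlast n) with h | ⟨t, ht⟩
      · exact h
      · exact lemA hv ⟨t, ht⟩ (hlast n)
    · obtain ⟨t0, e0⟩ := hp
      have hno : ∀ a b, g false ≠ a ++ [false, false] ++ b := by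
        intro a b h
        exact hff ⟨1, a, b, by rw [hW1, h]⟩
      match t0, e0 with
      | [], e0 => rw [e0] at h2; simp at h2
      | [x2], e0 =>
        cases x2
        · exact absurd e0 (hno [] [])
        · rw [e0] at h2; simp at h2
      | false :: x3 :: t, e0 => exact absurd e0 (hno [] (x3 :: t))
      | true :: true :: t, e0 => exact lemA hv (n := 1) ⟨t, by rw [hW1, e0]; rfl⟩ (hlast 1)
      | [true, false], e0 =>
        have hW2 : W g 2 = [false, true, false, true, false, true, false] := by
          rw [W_succ, hW1, e0]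
          simp [ext, e0, hv]
        exact lemQ (n := 2) (by rw [hW2]; simp) ⟨[false, true, false], by rw [hW2]; rfl⟩
      | true :: false :: false :: t, e0 => exact absurd e0 (hno [false, true] t)
      | [true, false, true], e0 =>
        exfalso
        rw [e0] at hc
        have h4 := (List.append_inj' (s₁ := [false, true, false]) (t₁ := [true]) hc rfl).2
        simp at h4
      | true :: false :: true :: x5 :: t, e0 =>
        exact lemQ (n := 1) (by rw [hW1, e0]; simp) ⟨x5 :: t, by rw [hW1, e0]; rfl⟩


theorem it_succ_app (g : Bool → List Bool) (n : ℕ) (x y : List Bool) (a : Bool)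
    (h : (ext g)^[n] x = y ++ [a]) : (ext g)^[n + 1] x = ext g y ++ g a := by
  rw [Function.iterate_succ_apply', h, ext_append]; simp [ext]

theorem it_succ_cons (g : Bool → List Bool) (n : ℕ) (x y : List Bool) (a : Bool)
    (h : (ext g)^[n] x = a :: y) : (ext g)^[n + 1] x = g a ++ ext g y := by
  rw [Function.iterate_succ_apply', h]; simp [ext]

theorem case_mix {g : Bool → List Bool} (hp : ∃ t, g false = false :: t)
    (hu : ∀ N, ∃ n, N ≤ (W g n).length) (hv : false ∈ g true) : Pt g := by
  by_cases ht : L g [true]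
  swap
  · exact allfalse hu ht
  have hcu : 1 ≤ (g false).count false := by
    obtain ⟨t, e⟩ := hp
    rw [e, List.count_cons_self]; omega
  have hcv : 1 ≤ (g true).count false := List.count_pos_iff.2 hv
  have h3 : ∃ j, 3 ≤ (W g j).count false := by
    obtain ⟨n, hn⟩ := hu 3
    refine ⟨n + 1, ?_⟩
    rw [W_succ, count_ext]
    have h1 := List.count_true_add_count_false (W g n)
    have h4 : (W g n).count false * 1 ≤ (W g n).count false * (g false).count false :=
      Nat.mul_le_mul_left _ hcu
    have h5 : (W g n).count true * 1 ≤ (W g n).count true * (g true).count false :=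
      Nat.mul_le_mul_left _ hcv
    omega
  apply Pt_of_Fm hp h3
  -- lengths
  obtain ⟨N, hN⟩ := W_len hp hu 5
  have hlen : ∀ n, N + 1 ≤ n → ∀ x, 5 ≤ ((ext g)^[n] [x]).length := by
    intro n hn x
    cases x
    · exact hN n (by omega)
    · obtain ⟨m, rfl⟩ : ∃ m, n = m + 1 := ⟨n - 1, by omega⟩
      rw [Function.iterate_succ_apply]
      have e : ext g [true] = g true := by simp [ext]
      rw [e]
      obtain ⟨a, b, e2⟩ := List.append_of_mem hv
      have h6 : [false] <:+: g true := ⟨a, b, by rw [e2]; simp⟩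
      exact (hN m (by omega)).trans (it_infix g m h6).length_le
  -- length of `g(a)`
  obtain ⟨q2, u', hu'⟩ : ∃ q2 u', g false = false :: q2 :: u' := by
    obtain ⟨t, e⟩ := hp
    match t, e with
    | [], e =>
      exfalso
      have hW : ∀ n, W g n = [false] := by
        intro n
        induction n with
        | zero => rfl
        | succ n ih => rw [W_succ, ih]; simp [ext, e]
      obtain ⟨n, hn⟩ := hu 2
      rw [hW] at hn
      simp at hn
    | q2 :: u', e => exact ⟨q2, u', e⟩
  have hfL : L g [false] := ⟨0, List.infix_refl _⟩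
  by_cases hcc : ∃ c, L g [c, c]
  swap
  · push Not at hcc
    have hno : ∀ c n a b, W g n ≠ a ++ [c, c] ++ b := by
      intro c n a b h
      exact hcc c ⟨n, a, b, by rw [h]⟩
    obtain ⟨t, e⟩ := W_cons hp N
    have h5 := hN N le_rfl
    have hnoN := fun c => hno c N
    rw [e] at h5 hnoN
    apply lemQ (n := N) (hN N le_rfl)
    rw [e]
    match t, h5, hnoN with
    | false :: t, _, hnoN => exact absurd rfl (hnoN false [] t)
    | true :: true :: t, _, hnoN => exact absurd rfl (hnoN true [false] t)
    | true :: false :: false :: t, _, hnoN => exact absurd rfl (hnoN false [false, true] t)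
    | true :: false :: true :: t, _, _ => exact ⟨t, rfl⟩
  obtain ⟨c, hc⟩ := hcc
  by_cases hfirst : ∃ t, g true = false :: t
  · -- common first letter
    have hg : ∀ x, ∃ t, g x = false :: t := by
      intro x
      cases x
      · exact ⟨_, hu'⟩
      · exact hfirst
    have h1 : ∀ n x, ∃ t, (ext g)^[n + 1] [x] = false :: t := by
      intro n x
      induction n with
      | zero =>
        obtain ⟨t, e⟩ := hg x
        exact ⟨t, by simp [ext, e]⟩
      | succ n ih =>
        obtain ⟨t, e⟩ := ih
        exact ⟨_, by rw [it_succ_cons g (n + 1) _ _ _ e, hu']; rfl⟩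
    have h2 : ∀ x, ∃ t, (ext g)^[N + 2] [x] = false :: q2 :: t := by
      intro x
      obtain ⟨t, e⟩ := h1 N x
      exact ⟨_, by rw [it_succ_cons g (N + 1) _ _ _ e, hu']; rfl⟩
    obtain ⟨C, hC, hL⟩ := rec3 hp h3 hc hfL
    obtain ⟨d, C', rfl⟩ : ∃ d C', C = d :: C' := by
      match C, hC with
      | d :: C', _ => exact ⟨d, C', rfl⟩
    have hL2 : L g (([c] ++ [c]) ++ [d]) := L_of_infix ⟨[], C' ++ [false], by simp⟩ hL
    have hL3 := L_it (N + 2) hL2
    rw [it_append, it_append] at hL3
    obtain ⟨r, hr⟩ := h2 c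
    obtain ⟨r', hr'⟩ := h2 d
    have hl5 := hlen (N + 2) (by omega) c
    rw [hr] at hl5
    rw [hr, hr'] at hL3
    exact three (q1 := false) (q2 := q2) (r := r)
      (L_of_infix ⟨[], r', by simp⟩ hL3) (by simpa using hl5)
  obtain ⟨v', hv'⟩ : ∃ t, g true = true :: t := by
    match h : g true with
    | [] => rw [h] at hv; simp at hv
    | false :: t => exact absurd ⟨t, h⟩ hfirst
    | true :: t => exact ⟨t, rfl⟩
  obtain ⟨p2, v'', rfl⟩ : ∃ p v'', v' = p :: v'' := by
    match v', hv' with
    | [], hv' => rw [hv'] at hv; simp at hv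
    | p :: v'', _ => exact ⟨p, v'', rfl⟩
  -- last letters
  have hlastx : ∀ x, ∃ t e f, g x = t ++ [e, f] := by
    have gen : ∀ l : List Bool, 2 ≤ l.length → ∃ t e f, l = t ++ [e, f] := by
      intro l hl
      rcases List.eq_nil_or_concat l with rfl | ⟨r, f, rfl⟩
      · simp at hl
      rcases List.eq_nil_or_concat r with rfl | ⟨t, e, rfl⟩
      · simp at hl
      exact ⟨t, e, f, by simp⟩
    intro x
    cases x
    · exact gen _ (by rw [hu']; simp)
    · exact gen _ (by rw [hv']; simp)
  obtain ⟨tf, ef, ff, hef⟩ := hlastx false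
  obtain ⟨tt, et, ft, het⟩ := hlastx true
  by_cases hff : ff = ft
  · subst hff
    have hg : ∀ x, ∃ t, g x = t ++ [ff] := by
      intro x
      cases x
      · exact ⟨tf ++ [ef], by rw [hef]; simp⟩
      · exact ⟨tt ++ [et], by rw [het]; simp⟩
    obtain ⟨tx, ex, fx, hx⟩ := hlastx ff
    have h1 : ∀ n x, ∃ t, (ext g)^[n + 1] [x] = t ++ [ff] := by
      intro n x
      induction n with
      | zero =>
        obtain ⟨t, e⟩ := hg x
        exact ⟨t, by simp [ext, e]⟩
      | succ n ih =>
        obtain ⟨t, e⟩ := ih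
        obtain ⟨t2, e2⟩ := hg ff
        exact ⟨ext g t ++ t2, by rw [it_succ_app g (n + 1) _ _ _ e, e2]; simp⟩
    have h2 : ∀ x, ∃ t, (ext g)^[N + 2] [x] = t ++ [ex, fx] := by
      intro x
      obtain ⟨t, e⟩ := h1 N x
      exact ⟨ext g t ++ tx, by rw [it_succ_app g (N + 1) _ _ _ e, hx]; simp⟩
    obtain ⟨C, hC, hL⟩ := rec3 hp h3 hfL hc
    obtain ⟨C', d, rfl⟩ : ∃ C' d, C = C' ++ [d] := by
      rcases List.eq_nil_or_concat C with h | ⟨r, f, h⟩
      · exact absurd h hC
      · exact ⟨r, f, by simpa using h⟩
    have hL2 : L g ([d] ++ [c] ++ [c]) := L_of_infix ⟨[false] ++ C', [], by simp⟩ hL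
    have hL3 := L_it (N + 2) hL2
    rw [it_append, it_append] at hL3
    obtain ⟨r, hr⟩ := h2 c
    obtain ⟨r', hr'⟩ := h2 d
    have hl5 := hlen (N + 2) (by omega) c
    rw [hr] at hl5
    rw [hr, hr'] at hL3
    exact three' (q1 := fx) (q2 := ex) (r := r)
      (L_of_infix ⟨r', [], by simp⟩ hL3) (by simpa using hl5)
  -- distinct last letters
  have hfin : ∀ n x, ∃ t, (ext g)^[n] [x] = x :: t := by
    intro n x
    induction n with
    | zero => exact ⟨[], rfl⟩
    | succ n ih =>
      obtain ⟨t, e⟩ := ih
      rw [it_succ_cons g n _ _ _ e]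
      cases x
      · exact ⟨_, by rw [hu']; rfl⟩
      · exact ⟨_, by rw [hv']; rfl⟩
  have hlin : ∀ n x, ∃ t, (ext g)^[2 * n] [x] = t ++ [x] := by
    intro n x
    induction n with
    | zero => exact ⟨[], rfl⟩
    | succ n ih =>
      obtain ⟨t, e⟩ := ih
      rw [show 2 * (n + 1) = 2 * n + 1 + 1 from by ring]
      have hg : ∀ y, ∃ t, g y = t ++ [xor y ff] := by
        intro y
        cases y
        · exact ⟨tf ++ [ef], by rw [hef]; simp⟩
        · refine ⟨tt ++ [et], ?_⟩
          have : ft = xor true ff := by cases ff <;> cases ft <;> simp_all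
          rw [het, this]; simp
      obtain ⟨t1, e1⟩ := hg x
      obtain ⟨t2, e2⟩ := hg (xor x ff)
      have h1 : (ext g)^[2 * n + 1] [x] = (ext g t ++ t1) ++ [xor x ff] := by
        rw [it_succ_app g (2 * n) _ _ _ e, e1]; simp
      refine ⟨ext g (ext g t ++ t1) ++ t2, ?_⟩
      rw [it_succ_app g _ _ _ _ h1, e2]
      cases x <;> cases ff <;> simp
  exact core (n := 2 * (N + 1)) (hlen _ (by omega)) (hfin _) (hlin _) hc

/-- **Main theorem.** -/
theorem main {g : Bool → List Bool} (hp : ∃ t, g false = false :: t)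
    (hu : ∀ N, ∃ n, N ≤ (W g n).length) : Pt g := by
  by_cases hv : false ∈ g true
  · exact case_mix hp hu hv
  have hr : g true = List.replicate (g true).length true := by
    refine List.eq_replicate_iff.2 ⟨rfl, fun x hx => ?_⟩
    by_contra hne
    have : x = false := by simpa using hne
    subst this
    exact hv hx
  rcases Nat.lt_or_ge (g true).length 2 with h | h
  · rcases Nat.lt_or_ge (g true).length 1 with h0 | h1
    · exact case_nil hp hu (List.length_eq_zero_iff.1 (by omega))
    · have : (g true).length = 1 := by omega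
      rw [this] at hr
      exact case_fix hp hu hr
  · exact case_rep hu h hr

end Pool.Agent.MP_8331c1_co.Bin
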