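import Mathlib.Data.List.Infix
import Mathlib.Data.List.Basic
import Mathlib.Data.Nat.Digits.Defs
import Mathlib.Tactic

namespace Pool.Agent.MP_8331c1_co.Tern

/-- Thue-Morse -/
def T (n : ℕ) : Bool := (Nat.digits 2 n).sum.bodd

theorem T_even (n : ℕ) : T (2 * n) = T n := by
  rcases Nat.eq_zero_or_pos n with rfl | h
  · simp
  · unfold T
    rw [Nat.digits_def' (by norm_num) (by omega)]
    simp

theorem T_odd (n : ℕ) : T (2 * n + 1) = !T n := by
  unfold T
  rw [Nat.digits_def' (by norm_num) (by omega)]
  rw [show (2 * n + 1) % 2 = 1 from by omega, show (2 * n + 1) / 2 = n from by omega]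
  simp [Nat.bodd_add]

theorem no_cube (k : ℕ) : ¬ (T k = T (k + 1) ∧ T (k + 1) = T (k + 2)) := by
  rintro ⟨h1, h2⟩
  obtain ⟨m, rfl | rfl⟩ : ∃ m, k = 2 * m ∨ k = 2 * m + 1 := ⟨k / 2, by omega⟩
  · rw [T_even, T_odd] at h1; simp at h1
  · rw [show 2 * m + 1 + 1 = 2 * (m + 1) from by ring, T_even,
      show 2 * m + 1 + 2 = 2 * (m + 1) + 1 from by ring, T_odd] at h2
    simp at h2

/-- in 5 consecutive letters there are two equal neighbours -/
theorem five (i : ℕ) : ∃ j, j < 4 ∧ T (i + j) = T (i + j + 1) := by
  by_contra h
  push Not at h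
  have h0 := h 0 (by omega)
  have h1 := h 1 (by omega)
  have h2 := h 2 (by omega)
  have h3 := h 3 (by omega)
  have e0 : T i = T (i + 2) := by
    revert h0 h1; simp only [add_zero, Nat.add_assoc]
    generalize T i = a; generalize T (i + 1) = b; generalize T (i + 2) = c
    revert a b c; decide
  have e1 : T (i + 1) = T (i + 3) := by
    revert h1 h2; simp only [Nat.add_assoc]
    generalize T (i + 1) = a; generalize T (i + 2) = b; generalize T (i + 3) = c
    revert a b c; decide
  have e2 : T (i + 2) = T (i + 4) := by
    revert h2 h3; simp only [Nat.add_assoc]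
    generalize T (i + 2) = a; generalize T (i + 3) = b; generalize T (i + 4) = c
    revert a b c; decide
  obtain ⟨m, rfl | rfl⟩ : ∃ m, i = 2 * m ∨ i = 2 * m + 1 := ⟨i / 2, by omega⟩
  · rw [T_even, show 2 * m + 2 = 2 * (m + 1) from by ring, T_even] at e0
    rw [show 2 * m + 2 = 2 * (m + 1) from by ring, T_even,
      show 2 * m + 4 = 2 * (m + 2) from by ring, T_even] at e2
    exact no_cube m ⟨e0, e2⟩
  · rw [T_odd, show 2 * m + 1 + 2 = 2 * (m + 1) + 1 from by ring, T_odd] at e0
    rw [show 2 * m + 1 + 2 = 2 * (m + 1) + 1 from by ring, T_odd,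
      show 2 * m + 1 + 4 = 2 * (m + 2) + 1 from by ring, T_odd] at e2
    exact no_cube m ⟨by simpa using e0, by simpa using e2⟩

theorem eq_odd {j : ℕ} (h : T j = T (j + 1)) : j % 2 = 1 := by
  by_contra hj
  obtain ⟨m, rfl⟩ : ∃ m, j = 2 * m := ⟨j / 2, by omega⟩
  rw [T_even, T_odd] at h
  simp at h

/-- Thue-Morse is overlap free -/
theorem overlap_free : ∀ m, 1 ≤ m → ∀ i, ¬ ∀ t, t ≤ m → T (i + t) = T (i + m + t) := by
  intro m
  induction m using Nat.strong_induction_on with
  | _ m ih =>
    intro hm i h
    rcases Nat.even_or_odd' m with ⟨k, rfl | rfl⟩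
    · -- even period
      obtain ⟨q, rfl | rfl⟩ : ∃ q, i = 2 * q ∨ i = 2 * q + 1 := ⟨i / 2, by omega⟩
      · refine ih k (by omega) (by omega) q fun t ht => ?_
        have := h (2 * t) (by omega)
        rw [show 2 * q + 2 * t = 2 * (q + t) from by ring, T_even,
          show 2 * q + 2 * k + 2 * t = 2 * (q + k + t) from by ring, T_even] at this
        exact this
      · refine ih k (by omega) (by omega) q fun t ht => ?_
        have := h (2 * t) (by omega)
        rw [show 2 * q + 1 + 2 * t = 2 * (q + t) + 1 from by ring, T_odd,
          show 2 * q + 1 + 2 * k + 2 * t = 2 * (q + k + t) + 1 from by ring, T_odd] at this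
        simpa using this
    · rcases Nat.lt_or_ge k 2 with hk | hk
      · have hk' : k = 0 ∨ k = 1 := by omega
        rcases hk' with rfl | rfl
        · have h0 := h 0 (by omega)
          have h1 := h 1 (by omega)
          exact no_cube i ⟨by simpa using h0, by simpa [Nat.add_assoc] using h1⟩
        · -- period 3
          have h0 := h 0 (by omega)
          have h1 := h 1 (by omega)
          have h2 := h 2 (by omega)
          have h3 := h 3 (by omega)
          norm_num [Nat.add_assoc] at h0 h1 h2 h3
          obtain ⟨q, rfl | rfl⟩ : ∃ q, i = 2 * q ∨ i = 2 * q + 1 := ⟨i / 2, by omega⟩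
          · rw [T_even, show 2 * q + 3 = 2 * (q + 1) + 1 from by ring, T_odd] at h0
            rw [T_odd, show 2 * q + 4 = 2 * (q + 2) from by ring, T_even] at h1
            rw [show 2 * q + 2 = 2 * (q + 1) from by ring, T_even,
              show 2 * q + 5 = 2 * (q + 2) + 1 from by ring, T_odd] at h2
            rw [show 2 * q + 3 = 2 * (q + 1) + 1 from by ring, T_odd,
              show 2 * q + 6 = 2 * (q + 3) from by ring, T_even] at h3
            revert h0 h1 h2 h3
            generalize T q = a; generalize T (q + 1) = b; generalize T (q + 2) = c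
            generalize T (q + 3) = d
            revert a b c d
            decide
          · rw [T_odd, show 2 * q + 1 + 3 = 2 * (q + 2) from by ring, T_even] at h0
            rw [show 2 * q + 1 + 1 = 2 * (q + 1) from by ring, T_even,
              show 2 * q + 1 + 4 = 2 * (q + 2) + 1 from by ring, T_odd] at h1
            rw [show 2 * q + 1 + 2 = 2 * (q + 1) + 1 from by ring, T_odd,
              show 2 * q + 1 + 5 = 2 * (q + 3) from by ring, T_even] at h2
            rw [show 2 * q + 1 + 3 = 2 * (q + 2) from by ring, T_even,
              show 2 * q + 1 + 6 = 2 * (q + 3) + 1 from by ring, T_odd] at h3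
            revert h0 h1 h2 h3
            generalize T q = a; generalize T (q + 1) = b; generalize T (q + 2) = c
            generalize T (q + 3) = d
            revert a b c d
            decide
      · -- odd period at least 5
        obtain ⟨j, hj, e⟩ := five i
        have h1 := h j (by omega)
        have h2 := h (j + 1) (by omega)
        have e' : T (i + (2 * k + 1) + j) = T (i + (2 * k + 1) + j + 1) := by
          rw [← h1, e, show i + j + 1 = i + (j + 1) from by ring, h2]
          rfl
        have o1 := eq_odd e
        have o2 := eq_odd e'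
        omega


theorem no_overlap_list {N : ℕ} {u v Y : List Bool} {y : Bool}
    (h : (List.range N).map T = u ++ ((y :: Y) ++ (y :: Y) ++ [y]) ++ v) : False := by
  set Z : List Bool := (y :: Y) ++ (y :: Y) ++ [y] with hZ
  have hlen : Z.length = 2 * (y :: Y).length + 1 := by simp [hZ]; ring
  have key : ∀ j (hj : j < Z.length), T (u.length + j) = Z[j] := by
    intro j hj
    have hN : u.length + j < ((List.range N).map T).length := by
      rw [h]; simp only [List.length_append]; omega
    have e1 : ((List.range N).map T)[u.length + j] = T (u.length + j) := by simp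
    rw [← e1, List.getElem_of_eq h]
    rw [List.getElem_append_left (by simp only [List.length_append]; omega),
      List.getElem_append_right (by omega)]
    simp
  refine overlap_free (y :: Y).length (by simp) u.length fun t ht => ?_
  rw [add_assoc, key t (by omega), key _ (by omega)]
  rcases Nat.lt_or_ge t (y :: Y).length with h1 | h1
  · have e1 : Z[t] = (y :: Y)[t] := by
      simp only [hZ]
      rw [List.getElem_append_left (by simp only [List.length_append]; omega),
        List.getElem_append_left (by omega)]
    have e2 : Z[(y :: Y).length + t] = (y :: Y)[t] := by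
      simp only [hZ]
      rw [List.getElem_append_left (by simp only [List.length_append]; omega),
        List.getElem_append_right (by omega)]
      simp
    rw [e1, e2]
  · have ht' : t = (y :: Y).length := by omega
    subst ht'
    have e1 : Z[(y :: Y).length] = y := by
      simp only [hZ]
      rw [List.getElem_append_left (by simp only [List.length_append]; simp),
        List.getElem_append_right (by omega)]
      simp
    have e2 : Z[(y :: Y).length + (y :: Y).length] = y := by
      simp only [hZ]
      rw [List.getElem_append_right (by simp only [List.length_append]; omega)]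
      simp
    rw [e1, e2]

/-- extension of a letter map -/
def ex {α β : Type} (g : α → List β) (x : List α) : List β := x.flatMap g

theorem ex_append {α β : Type} (g : α → List β) (x y : List α) :
    ex g (x ++ y) = ex g x ++ ex g y := by simp [ex]

def mu : Bool → List Bool := fun b => [b, !b]

theorem mu_range (k : ℕ) : ex mu ((List.range k).map T) = (List.range (2 * k)).map T := by
  induction k with
  | zero => rfl
  | succ k ih =>
    rw [List.range_succ, List.map_append, ex_append, ih,
      show 2 * (k + 1) = 2 * k + 1 + 1 from by ring, List.range_succ, List.range_succ]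
    simp [ex, mu, T_even, T_odd]

theorem mu_it (n : ℕ) : (ex mu)^[n] [false] = (List.range (2 ^ n)).map T := by
  induction n with
  | zero => simp [T]
  | succ n ih => rw [Function.iterate_succ_apply', ih, mu_range, pow_succ, mul_comm]

theorem it_append {α : Type} (g : α → List α) (n : ℕ) (x y : List α) :
    (ex g)^[n] (x ++ y) = (ex g)^[n] x ++ (ex g)^[n] y := by
  induction n generalizing x y with
  | zero => rfl
  | succ n ih => simp only [Function.iterate_succ, Function.comp]; rw [ex_append, ih]

/-- Thue's ternary morphism -/
def g3 : Fin 3 → List (Fin 3) := ![[0, 1, 2], [0, 2], [1]]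

def tau : Fin 3 → List Bool := ![[false, true, true], [false, true], [false]]

theorem tau_g3 (x : List (Fin 3)) : ex tau (ex g3 x) = ex mu (ex tau x) := by
  induction x with
  | nil => rfl
  | cons a x ih =>
    have e : ∀ a : Fin 3, ex tau (g3 a) = ex mu (tau a) := by decide
    have e1 : ex g3 (a :: x) = g3 a ++ ex g3 x := by simp [ex]
    have e2 : ex tau (a :: x) = tau a ++ ex tau x := by simp [ex]
    rw [e1, e2, ex_append, ex_append, ih, e]

theorem tau_it (n : ℕ) (x : List (Fin 3)) :
    ex tau ((ex g3)^[n] x) = (ex mu)^[n] (ex tau x) := by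
  induction n generalizing x with
  | zero => rfl
  | succ n ih => rw [Function.iterate_succ_apply, ih, tau_g3, Function.iterate_succ_apply]

theorem tau_head {x : List (Fin 3)} (hx : x ≠ []) : ∃ t, ex tau x = false :: t := by
  match x, hx with
  | a :: x, _ =>
    have e2 : ex tau (a :: x) = tau a ++ ex tau x := by simp [ex]
    have e3 : ∀ a : Fin 3, tau a = false :: (tau a).tail := by decide
    rw [e2, e3 a]
    exact ⟨_, rfl⟩

theorem g3_ne {x : List (Fin 3)} (hx : x ≠ []) (n : ℕ) : (ex g3)^[n] x ≠ [] := by
  induction n generalizing x with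
  | zero => exact hx
  | succ n ih =>
    rw [Function.iterate_succ_apply]
    apply ih
    match x, hx with
    | a :: x, _ =>
      have e1 : ex g3 (a :: x) = g3 a ++ ex g3 x := by simp [ex]
      have e3 : ∀ a : Fin 3, g3 a ≠ [] := by decide
      rw [e1]
      simp [e3 a]

/-- the fixed point of `g3` is square-free -/
theorem square_free (n : ℕ) (X : List (Fin 3)) (hX : X ≠ []) :
    ¬ (X ++ X) <:+: (ex g3)^[n] [0] := by
  rintro ⟨s, t, e⟩
  have e1 : (ex g3)^[n + 1] [0] = s ++ (X ++ X) ++ (t ++ (ex g3)^[n] [1, 2]) := by
    rw [Function.iterate_succ_apply]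
    have : ex g3 [0] = [0] ++ [1, 2] := by decide
    rw [this, it_append, ← e]
    simp
  obtain ⟨w, hw⟩ := tau_head (x := t ++ (ex g3)^[n] [1, 2])
    (by simp [g3_ne (x := [1, 2]) (by simp) n])
  obtain ⟨Y, hY⟩ := tau_head hX
  have e2 : ex tau ((ex g3)^[n + 1] [0]) = ex tau s ++ ((false :: Y) ++ (false :: Y) ++ [false])
      ++ w := by
    rw [e1]
    simp only [ex_append] at hw ⊢
    rw [hY]
    simp only [List.append_assoc] at hw ⊢
    rw [hw]
    simp
  rw [tau_it] at e2
  have e3 : (ex mu)^[n + 1 + 2] [false] =
      (ex mu)^[n + 1] (ex tau [0]) ++ (ex mu)^[n + 1] [false] := by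
    rw [Function.iterate_add_apply, ← it_append]
    rfl
  rw [e2, mu_it (n + 1 + 2)] at e3
  exact no_overlap_list (N := 2 ^ (n + 1 + 2)) (u := ex tau s) (Y := Y) (y := false)
    (v := w ++ (ex mu)^[n + 1] [false]) (by rw [e3]; simp)

theorem g3_len (n : ℕ) : n + 1 ≤ ((ex g3)^[n] [0]).length := by
  induction n with
  | zero => simp
  | succ n ih =>
    rw [Function.iterate_succ_apply]
    have : ex g3 [0] = [0] ++ [1, 2] := by decide
    rw [this, it_append, List.length_append]
    have := List.length_pos_iff.2 (g3_ne (x := [1, 2]) (by simp) n)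
    omega

end Pool.Agent.MP_8331c1_co.Tern
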